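import Pool.Agent.Q230.HD.St

/-!
# Project HD (helper230): a Hadamard decomposition of the instance gives vectors
-/

set_option autoImplicit false

namespace Pool.Agent.Q124.HD

open Pool.Agent.NPC Pool.Agent.NPC.ER Matrix Pool.Agent.Q230.HD

/-- Rank factorization. -/
theorem rkf {M N k : ℕ} (B : Matrix (Fin M) (Fin N) ℝ) (h : B.rank = k) :
    ∃ (U : Fin M → Fin k → ℝ) (V : Fin N → Fin k → ℝ), ∀ i j, B i j = U i ⬝ᵥ V j := by
  have hd : Module.finrank ℝ (LinearMap.range B.mulVecLin) = k := h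
  let b := Module.finBasisOfFinrankEq ℝ (LinearMap.range B.mulVecLin) hd
  have hmem : ∀ j : Fin N, B.col j ∈ LinearMap.range B.mulVecLin := by
    intro j
    rw [LinearMap.mem_range]
    exact ⟨Pi.single j 1, by
      rw [Matrix.mulVecLin_apply, Matrix.mulVec_single_one]⟩
  refine ⟨fun i l => (b l : Fin M → ℝ) i, fun j l => b.repr ⟨B.col j, hmem j⟩ l, ?_⟩
  intro i j
  have h1 := b.sum_repr ⟨B.col j, hmem j⟩
  have h2 : (∑ k : Fin k, b.repr ⟨B.col j, hmem j⟩ k • (b k : Fin M → ℝ)) i = B i j := by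
    have h3 := congrArg (fun x : LinearMap.range B.mulVecLin => (x : Fin M → ℝ)) h1
    simp only [Submodule.coe_sum, Submodule.coe_smul] at h3
    rw [h3]
    rfl
  rw [← h2, Finset.sum_apply]
  simp only [Pi.smul_apply, smul_eq_mul, dotProduct]
  exact Finset.sum_congr rfl fun l _ => mul_comm _ _

theorem length_tab (M K : ℕ) (f : ℕ → ℕ → ℚ) : (tab M K f).length = M := by
  unfold tab
  rw [List.length_map, List.length_range]

theorem width_tab {M K : ℕ} (f : ℕ → ℕ → ℚ) (hM : 0 < M) : width (tab M K f) = K := by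
  obtain ⟨M, rfl⟩ : ∃ M', M = M' + 1 := ⟨M - 1, by omega⟩
  unfold width tab
  rw [List.range_succ_eq_map]
  simp

theorem ent_tab {M K : ℕ} (f : ℕ → ℕ → ℚ) {i j : ℕ} (hi : i < M) (hj : j < K) :
    ent (tab M K f) i j = f i j := by
  unfold ent tab
  simp [List.getD_eq_getElem?_getD, hi, hj]

theorem rows_tab {M K : ℕ} (f : ℕ → ℕ → ℚ) (hM : 0 < M) :
    ∀ r ∈ tab M K f, r.length = width (tab M K f) := by
  intro r hr
  rw [width_tab f hM]
  unfold tab at hr
  obtain ⟨i, _, rfl⟩ := List.mem_map.1 hr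
  rw [List.length_map, List.length_range]

theorem dec_aux (A : List (List ℚ)) (R K m n : ℕ) (hm : A.length = m) (hn : width A = n)
    (h : HDP (A, R, K)) : ∃ (U V : ℕ → Fin R → ℝ) (U' V' : ℕ → Fin K → ℝ), ∀ i < m, ∀ j < n,
      (ent A i j : ℝ) = (U i ⬝ᵥ V j) * (U' i ⬝ᵥ V' j) := by
  subst hm
  subst hn
  obtain ⟨-, M₁, M₂, h1, h2, h3⟩ := h
  obtain ⟨U, V, h4⟩ := rkf M₁ h1
  obtain ⟨U', V', h5⟩ := rkf M₂ h2
  refine ⟨fun i => if h : i < A.length then U ⟨i, h⟩ else 0,
    fun j => if h : j < width A then V ⟨j, h⟩ else 0,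
    fun i => if h : i < A.length then U' ⟨i, h⟩ else 0,
    fun j => if h : j < width A then V' ⟨j, h⟩ else 0, ?_⟩
  intro i hi j hj
  simp only [dif_pos hi, dif_pos hj]
  have h6 := h3 ⟨i, hi⟩ ⟨j, hj⟩
  rw [h4, h5] at h6
  exact h6

theorem row_idx {rows : List Row} {x : Row} (hx : x ∈ rows) :
    rows.getD (rows.idxOf x) [] = x := by
  have h := List.idxOf_lt_length_iff.2 hx
  rw [List.getD_eq_getElem _ _ h, List.getElem_idxOf]

theorem div_mod_col {K a l : ℕ} (hl : l < K) : (a * K + l) / K = a ∧ (a * K + l) % K = l := by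
  constructor
  · rw [mul_comm, Nat.mul_add_div (by omega), Nat.div_eq_of_lt hl, add_zero]
  · rw [mul_comm, Nat.mul_add_mod, Nat.mod_eq_of_lt hl]

theorem col_lt {R K a l : ℕ} (ha : a < R) (hl : l < K) : a * K + l < R * K := by
  calc a * K + l < a * K + K := by omega
    _ = (a + 1) * K := by ring
    _ ≤ R * K := Nat.mul_le_mul_right K ha

/-- **S_A.** -/
theorem sa : S_A := by
  intro R K rows h
  rcases Nat.eq_zero_or_pos rows.length with h0 | h0
  · rw [List.length_eq_zero_iff] at h0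
    subst h0
    exact ⟨fun _ => 0, fun _ => 0, fun _ _ => 0, fun _ _ => 0, fun x hx => by simp at hx⟩
  · obtain ⟨U, V, U', V', hU⟩ := dec_aux _ R K rows.length (R * K)
      (length_tab _ _ _) (width_tab _ h0) h
    refine ⟨fun x => U (rows.idxOf x), fun x => U' (rows.idxOf x),
      fun a l => V (a * K + l), fun a l => V' (a * K + l), ?_⟩
    intro x hx a l
    have hi := List.idxOf_lt_length_iff.2 hx
    have hj := col_lt a.2 l.2
    have h1 := hU _ hi _ hj
    rw [ent_tab _ hi hj] at h1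
    simp only [(div_mod_col l.2).1, (div_mod_col l.2).2, row_idx hx] at h1
    exact h1

end Pool.Agent.Q124.HD
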