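import Pool.Agent.Q124.HD.A

/-!
# Project HD (helper230): the converse, exact ranks
-/

set_option autoImplicit false

namespace Pool.Agent.Q124.HD

open Pool.Agent.NPC Pool.Agent.NPC.ER Matrix Pool.Agent.Q230.HD

theorem le_rank_of_sub {m n r : ℕ} (A : Matrix (Fin m) (Fin n) ℝ) (e : Fin r → Fin m)
    (f : Fin r → Fin n) (h : IsUnit (A.submatrix e f)) : r ≤ A.rank := by
  have h1 : A.submatrix e f = (Matrix.of fun (a : Fin r) (i : Fin m) =>
      if e a = i then (1 : ℝ) else 0) * A * (Matrix.of fun (j : Fin n) (b : Fin r) =>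
      if j = f b then (1 : ℝ) else 0) := by
    ext a b
    simp [Matrix.mul_apply]
  have h2 := Matrix.rank_of_isUnit _ h
  rw [Fintype.card_fin] at h2
  rw [h1] at h2
  have h3 := Matrix.rank_mul_le_left ((Matrix.of fun (a : Fin r) (i : Fin m) =>
      if e a = i then (1 : ℝ) else 0) * A) (Matrix.of fun (j : Fin n) (b : Fin r) =>
      if j = f b then (1 : ℝ) else 0)
  have h4 := Matrix.rank_mul_le_right (Matrix.of fun (a : Fin r) (i : Fin m) =>
      if e a = i then (1 : ℝ) else 0) A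
  omega

theorem unit_of_diag {r : ℕ} (D : Matrix (Fin r) (Fin r) ℝ) (h1 : ∀ a, D a a ≠ 0)
    (h2 : ∀ a b, a ≠ b → D a b = 0) : IsUnit D := by
  have h3 : D = Matrix.diagonal fun a => D a a := by
    ext a b
    by_cases h : a = b
    · subst h
      rw [Matrix.diagonal_apply_eq]
    · rw [Matrix.diagonal_apply_ne _ h, h2 a b h]
  rw [h3, Matrix.isUnit_iff_isUnit_det, Matrix.det_diagonal, isUnit_iff_ne_zero,
    Finset.prod_ne_zero_iff]
  exact fun a _ => h1 a

theorem hdp_aux (A : List (List ℚ)) (m n R K : ℕ) (hm : A.length = m) (hn : width A = n)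
    (hin : ∀ r ∈ A, r.length = width A) (N₁ N₂ : Matrix (Fin m) (Fin n) ℝ) (h₁ : N₁.rank = R)
    (h₂ : N₂.rank = K) (h : ∀ (i : Fin m) (j : Fin n), (ent A i j : ℝ) = N₁ i j * N₂ i j) : HDP (A, R, K) := by
  subst hm
  subst hn
  exact ⟨hin, N₁, N₂, h₁, h₂, h⟩

theorem mem_rowsU {R K a l : ℕ} (ha : a < R) (hl : l < K) :
    ([(a, l, 1)] : Row) ∈ rowsU R K := by
  unfold rowsU
  rw [List.mem_flatMap]
  refine ⟨a, List.mem_range.2 ha, ?_⟩
  rw [List.mem_map]
  exact ⟨l, List.mem_range.2 hl, rfl⟩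

theorem bv_unit_self (K a : ℕ) (l : Fin K) :
    bv K ([(a, (l : ℕ), 1)] : Row) a = Pi.single l 1 := by
  funext l'
  unfold bv
  simp only [cf, true_and]
  by_cases h : l' = l
  · subst h
    simp
  · rw [Pi.single_eq_of_ne h, if_neg (fun h' => h (Fin.ext h'.symm))]
    simp

theorem bv_unit_other (K a a' l : ℕ) (h : a' ≠ a) :
    bv K ([(a, l, 1)] : Row) a' = 0 := by
  funext l'
  unfold bv
  simp only [cf]
  rw [if_neg (fun h' => h h'.1.symm)]
  simp

/-- **S_C.** -/
theorem sc : S_C := by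
  intro R K rows hR hK hU hP
  obtain ⟨B, hB, hx⟩ := hP
  have hex : ∀ x : Row, ∃ (v : Fin K → ℝ) (s : ℕ → ℝ), x ∈ rows →
      ∀ a < R, B a *ᵥ bv K x a = s a • v := by
    intro x
    by_cases h : x ∈ rows
    · obtain ⟨v, hv⟩ := hx x h
      choose! s hs using hv
      exact ⟨v, s, fun _ => hs⟩
    · exact ⟨0, 0, fun h' => absurd h' h⟩
  choose v s hs using hex
  have hdet : ∀ a < R, IsUnit (B a).det := fun a ha =>
    (Matrix.isUnit_iff_isUnit_det _).1 (hB a ha)
  -- the unit rows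
  have hun : ∀ a < R, ∀ l : Fin K, s [(a, (l : ℕ), 1)] a ≠ 0 ∧ v [(a, (l : ℕ), 1)] ≠ 0 := by
    intro a ha l
    have h1 := hs [(a, (l : ℕ), 1)] (hU _ (mem_rowsU ha l.2)) a ha
    rw [bv_unit_self] at h1
    have h2 : s [(a, (l : ℕ), 1)] a • v [(a, (l : ℕ), 1)] ≠ 0 := by
      rw [← h1]
      intro h3
      have h4 : (B a)⁻¹ *ᵥ (B a *ᵥ Pi.single l 1) = (B a)⁻¹ *ᵥ 0 := by rw [h3]
      rw [Matrix.mulVec_mulVec, Matrix.nonsing_inv_mul _ (hdet a ha), Matrix.one_mulVec,
        Matrix.mulVec_zero] at h4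
      have h5 := congrFun h4 l
      simp at h5
    exact ⟨fun h => h2 (by rw [h, zero_smul]), fun h => h2 (by rw [h, smul_zero])⟩
  have h0 : 0 < rows.length := List.length_pos_of_mem (hU _ (mem_rowsU hR hK))
  let N₁ : Matrix (Fin rows.length) (Fin (R * K)) ℝ := fun i j => s (rows.getD i []) (j / K)
  let N₂ : Matrix (Fin rows.length) (Fin (R * K)) ℝ := fun i j =>
    ((B (j / K))⁻¹ *ᵥ v (rows.getD i [])) ⟨j % K, Nat.mod_lt _ hK⟩
  have hrow : ∀ i : Fin rows.length, rows.getD i [] ∈ rows := by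
    intro i
    rw [List.getD_eq_getElem _ _ i.2]
    exact List.getElem_mem _
  have hidx : ∀ x ∈ rows, rows.idxOf x < rows.length := fun x h => List.idxOf_lt_length_iff.2 h
  refine hdp_aux _ rows.length (R * K) R K (length_tab _ _ _) (width_tab _ h0)
    (rows_tab _ h0) N₁ N₂ ?_ ?_ ?_
  · -- the rank of `N₁`
    apply le_antisymm
    · have h1 : N₁ = (Matrix.of fun (i : Fin rows.length) (a : Fin R) => s (rows.getD i []) a) *
          (Matrix.of fun (a : Fin R) (j : Fin (R * K)) =>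
            if (a : ℕ) = j / K then (1 : ℝ) else 0) := by
        ext i j
        have hj : (j : ℕ) / K < R := Nat.div_lt_of_lt_mul (j.2.trans_eq (mul_comm R K))
        rw [Matrix.mul_apply, Finset.sum_eq_single (⟨(j : ℕ) / K, hj⟩ : Fin R)]
        · simp only [Matrix.of_apply, if_true, mul_one]
          rfl
        · intro b _ hb
          simp only [Matrix.of_apply]
          rw [if_neg (fun h => hb (Fin.ext h)), mul_zero]
        · intro h
          exact absurd (Finset.mem_univ _) h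
      rw [h1]
      exact (Matrix.rank_mul_le_left _ _).trans (Matrix.rank_le_width _)
    · refine le_rank_of_sub N₁
        (fun a => ⟨rows.idxOf [((a : ℕ), 0, 1)], hidx _ (hU _ (mem_rowsU a.2 hK))⟩)
        (fun a => ⟨(a : ℕ) * K + 0, col_lt a.2 hK⟩) (unit_of_diag _ ?_ ?_)
      · intro a
        have h1 : s (rows.getD (rows.idxOf [((a : ℕ), 0, 1)]) []) (((a : ℕ) * K + 0) / K) ≠ 0 := by
          rw [row_idx (hU _ (mem_rowsU a.2 hK)), (div_mod_col hK).1]
          exact (hun a a.2 ⟨0, hK⟩).1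
        exact h1
      · intro a b hab
        have h1 : s (rows.getD (rows.idxOf [((a : ℕ), 0, 1)]) []) (((b : ℕ) * K + 0) / K) = 0 := by
          rw [row_idx (hU _ (mem_rowsU a.2 hK)), (div_mod_col hK).1]
          have h2 := hs [((a : ℕ), 0, 1)] (hU _ (mem_rowsU a.2 hK)) b b.2
          rw [bv_unit_other K a b 0 (fun h => hab (Fin.ext h.symm)), Matrix.mulVec_zero] at h2
          rcases smul_eq_zero.1 h2.symm with h3 | h3
          · exact h3
          · exact absurd h3 (hun a a.2 ⟨0, hK⟩).2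
        exact h1
  · -- the rank of `N₂`
    apply le_antisymm
    · have h1 : N₂ = (Matrix.of fun (i : Fin rows.length) (k : Fin K) =>
          v (rows.getD i []) k) * (Matrix.of fun (k : Fin K) (j : Fin (R * K)) =>
            (B (j / K))⁻¹ ⟨j % K, Nat.mod_lt _ hK⟩ k) := by
        ext i j
        rw [Matrix.mul_apply]
        change ∑ k, (B (j / K))⁻¹ ⟨j % K, Nat.mod_lt _ hK⟩ k * v (rows.getD i []) k = _
        exact Finset.sum_congr rfl fun k _ => mul_comm _ _
      rw [h1]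
      exact (Matrix.rank_mul_le_left _ _).trans (Matrix.rank_le_width _)
    · have hl : ∀ l l' : Fin K, ((B 0)⁻¹ *ᵥ v [(0, (l : ℕ), 1)]) l' =
          (s [(0, (l : ℕ), 1)] 0)⁻¹ * (Pi.single l 1 : Fin K → ℝ) l' := by
        intro l l'
        have h1 := hs [(0, (l : ℕ), 1)] (hU _ (mem_rowsU hR l.2)) 0 hR
        rw [bv_unit_self] at h1
        have h2 : (Pi.single l 1 : Fin K → ℝ) =
            s [(0, (l : ℕ), 1)] 0 • ((B 0)⁻¹ *ᵥ v [(0, (l : ℕ), 1)]) := by
          rw [← Matrix.mulVec_smul, ← h1, Matrix.mulVec_mulVec,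
            Matrix.nonsing_inv_mul _ (hdet 0 hR), Matrix.one_mulVec]
        rw [h2, Pi.smul_apply, smul_eq_mul, inv_mul_cancel_left₀ (hun 0 hR l).1]
      have hcol : ∀ l : Fin K, (l : ℕ) < R * K := fun l => by
        have := col_lt hR l.2
        omega
      have hval : ∀ l l' : Fin K,
          (N₂ ⟨rows.idxOf [(0, (l : ℕ), 1)], hidx _ (hU _ (mem_rowsU hR l.2))⟩
            ⟨(l' : ℕ), hcol l'⟩) = ((B 0)⁻¹ *ᵥ v [(0, (l : ℕ), 1)]) l' := by
        intro l l'
        have e1 : (l' : ℕ) / K = 0 := Nat.div_eq_of_lt l'.2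
        have e2 : (⟨(l' : ℕ) % K, Nat.mod_lt _ hK⟩ : Fin K) = l' :=
          Fin.ext (Nat.mod_eq_of_lt l'.2)
        change ((B ((l' : ℕ) / K))⁻¹ *ᵥ v (rows.getD (rows.idxOf [(0, (l : ℕ), 1)]) []))
          ⟨(l' : ℕ) % K, Nat.mod_lt _ hK⟩ = _
        rw [row_idx (hU _ (mem_rowsU hR l.2)), e1, e2]
      refine le_rank_of_sub N₂
        (fun l => ⟨rows.idxOf [(0, (l : ℕ), 1)], hidx _ (hU _ (mem_rowsU hR l.2))⟩)
        (fun l => ⟨(l : ℕ), hcol l⟩) (unit_of_diag _ ?_ ?_)
      · intro l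
        rw [Matrix.submatrix_apply, hval, hl, Pi.single_eq_same, mul_one]
        exact inv_ne_zero (hun 0 hR l).1
      · intro l l' h
        rw [Matrix.submatrix_apply, hval, hl, Pi.single_eq_of_ne h.symm, mul_zero]
  · intro i j
    have hj : (j : ℕ) / K < R := Nat.div_lt_of_lt_mul (j.2.trans_eq (mul_comm R K))
    rw [ent_tab _ i.2 j.2]
    have h1 := hs (rows.getD i []) (hrow i) (j / K) hj
    have h2 : bv K (rows.getD i []) (j / K) =
        s (rows.getD i []) (j / K) • ((B (j / K))⁻¹ *ᵥ v (rows.getD i [])) := by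
      rw [← Matrix.mulVec_smul, ← h1, Matrix.mulVec_mulVec,
        Matrix.nonsing_inv_mul _ (hdet _ hj), Matrix.one_mulVec]
    have h3 := congrFun h2 ⟨(j : ℕ) % K, Nat.mod_lt _ hK⟩
    rw [Pi.smul_apply, smul_eq_mul] at h3
    exact h3

end Pool.Agent.Q124.HD
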